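import Mathlib

/-!
# Completely metrizable spaces are strongly Telgársky pseudocomplete
-/

namespace Pool.Agent.Results.MP_e752eb_gt.StrongTelgarsky

open Set Metric Filter Topology

universe u

/-- A sequence of sets is nested if the closure of each term is contained in the interior of the
preceding one. -/
def Nested {X : Type u} [TopologicalSpace X] (B : ℕ → Set X) : Prop :=
  ∀ n, closure (B (n + 1)) ⊆ interior (B n)

/-- `X` is strongly Telgársky pseudocomplete: it has a base of non-empty open sets such that every
nested sequence of members of the base has non-empty intersection. -/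
def StronglyTelgarsky (X : Type u) [TopologicalSpace X] : Prop :=
  ∃ 𝓑 : Set (Set X), TopologicalSpace.IsTopologicalBasis 𝓑 ∧ (∀ B ∈ 𝓑, B.Nonempty) ∧
    ∀ B : ℕ → Set X, (∀ n, B n ∈ 𝓑) → Nested B → (⋂ n, B n).Nonempty

lemma wf (X : Type u) : WellFounded (WellOrderingRel : X → X → Prop) :=
  IsWellFounded.wf

/-- `Centre r z`: for some `p` at distance `< r` from `z`, the point `z` is the least point (for a
fixed well-order of `X`) at distance `< r` from `p`. -/
def Centre {X : Type u} [MetricSpace X] (r : ℝ) (z : X) : Prop :=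
  ∃ p, dist p z < r ∧ ∀ y, dist p y < r → ¬ WellOrderingRel y z

/-- The radii. -/
noncomputable def rad (n : ℕ) : ℝ := 1 / ((n : ℝ) + 1)

lemma rad_pos (n : ℕ) : 0 < rad n := by unfold rad; positivity

theorem main (X : Type u) [MetricSpace X] [CompleteSpace X] : StronglyTelgarsky X := by
  refine ⟨{B | ∃ (n : ℕ) (z : X), Centre (rad n) z ∧ B = ball z (rad n)}, ?_, ?_, ?_⟩
  · apply TopologicalSpace.isTopologicalBasis_of_isOpen_of_nhds
    · rintro B ⟨n, z, -, rfl⟩
      exact isOpen_ball
    · intro x O hx hO
      obtain ⟨ε, hε, hεO⟩ := Metric.isOpen_iff.1 hO x hx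
      obtain ⟨n, hn⟩ := exists_nat_one_div_lt (show (0 : ℝ) < ε / 2 by positivity)
      have hne : {z : X | dist x z < rad n}.Nonempty := ⟨x, by simpa using rad_pos n⟩
      have hz : dist x ((wf X).min _ hne) < rad n := (wf X).min_mem _ hne
      have hmin : ∀ y, dist x y < rad n → ¬ WellOrderingRel y ((wf X).min _ hne) :=
        fun y hy => (wf X).not_lt_min _ hy
      refine ⟨ball ((wf X).min _ hne) (rad n), ⟨n, _, ⟨x, hz, hmin⟩, rfl⟩, hz, ?_⟩
      refine Subset.trans ?_ hεO
      intro w hw
      rw [mem_ball] at hw ⊢
      have h1 : dist w x ≤ dist w ((wf X).min _ hne) + dist ((wf X).min _ hne) x :=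
        dist_triangle _ _ _
      rw [dist_comm] at hz
      have h2 : rad n < ε / 2 := hn
      linarith
  · rintro B ⟨n, z, -, rfl⟩
    exact ⟨z, mem_ball_self (rad_pos n)⟩
  · intro B hB hnest
    choose n z hc hBz using hB
    have hsub : ∀ k, B (k + 1) ⊆ B k := fun k =>
      subset_closure.trans ((hnest k).trans interior_subset)
    have hanti : Antitone B := antitone_nat_of_succ_le hsub
    have hzB : ∀ k, z k ∈ B k := by
      intro k
      rw [hBz k]
      exact mem_ball_self (rad_pos _)
    by_cases hbd : ∀ N, ∃ k, N ≤ n k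
    · -- the levels are unbounded
      have hcau : CauchySeq z := by
        rw [Metric.cauchySeq_iff']
        intro ε hε
        obtain ⟨N, hN⟩ := exists_nat_one_div_lt hε
        obtain ⟨K, hK⟩ := hbd N
        refine ⟨K, fun k hk => ?_⟩
        have h1 : z k ∈ B K := hanti hk (hzB k)
        rw [hBz K, mem_ball] at h1
        have h2 : rad (n K) ≤ 1 / ((N : ℝ) + 1) := by
          unfold rad
          apply one_div_le_one_div_of_le (by positivity)
          have : (N : ℝ) ≤ n K := by exact_mod_cast hK
          linarith
        linarith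
      obtain ⟨x, hx⟩ := cauchySeq_tendsto_of_complete hcau
      refine ⟨x, mem_iInter.2 fun k => ?_⟩
      have h1 : x ∈ closure (B (k + 1)) := by
        refine mem_closure_of_tendsto hx ?_
        filter_upwards [eventually_ge_atTop (k + 1)] with j hj
        exact hanti hj (hzB j)
      exact interior_subset (hnest k h1)
    · -- some level occurs infinitely often
      push Not at hbd
      obtain ⟨N, hN⟩ := hbd
      obtain ⟨m, hm⟩ := Finite.exists_infinite_fiber (fun k => (⟨n k, hN k⟩ : Fin N))
      rw [Set.infinite_coe_iff] at hm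
      have hm' : ∀ j, ∃ k, j < k ∧ n k = m := by
        intro j
        obtain ⟨k, hk, hjk⟩ := hm.exists_gt j
        refine ⟨k, hjk, ?_⟩
        have : (⟨n k, hN k⟩ : Fin N) = m := hk
        rw [← this]
      have hne : {w | ∃ k, n k = m ∧ z k = w}.Nonempty := by
        obtain ⟨k, -, hk⟩ := hm' 0
        exact ⟨z k, k, hk, rfl⟩
      obtain ⟨k₀, hk₀, hz₀⟩ := (wf X).min_mem _ hne
      have hmin : ∀ k, n k = m → ¬ WellOrderingRel (z k) (z k₀) := by
        intro k hk
        rw [hz₀]
        have hmem : z k ∈ {w | ∃ k, n k = m ∧ z k = w} := ⟨k, hk, rfl⟩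
        exact (wf X).not_lt_min _ hmem
      have heq : ∀ k, k₀ ≤ k → n k = m → z k = z k₀ := by
        intro k hkk hk
        obtain ⟨p, hp, hpmin⟩ := hc k
        have h1 : p ∈ B k := by
          rw [hBz k]
          exact hp
        have h2 : p ∈ B k₀ := hanti hkk h1
        rw [hBz k₀, hk₀, mem_ball] at h2
        rw [hk] at hpmin
        have h3 := hpmin (z k₀) h2
        rcases trichotomous_of (WellOrderingRel : X → X → Prop) (z k) (z k₀) with h | h | h
        · exact absurd h (hmin k hk)
        · exact h
        · exact absurd h h3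
      refine ⟨z k₀, mem_iInter.2 fun j => ?_⟩
      obtain ⟨k, hk, hkm⟩ := hm' (max j k₀)
      have h1 : k₀ ≤ k := (le_max_right j k₀).trans hk.le
      have h2 : j ≤ k := (le_max_left j k₀).trans hk.le
      rw [← heq k h1 hkm]
      exact hanti h2 (hzB k)

/-- Q2: every completely metrizable space is strongly Telgársky pseudocomplete. -/
theorem result (X : Type u) [TopologicalSpace X]
    [TopologicalSpace.IsCompletelyMetrizableSpace X] : StronglyTelgarsky X := by
  let _ := TopologicalSpace.upgradeIsCompletelyMetrizable X
  exact main X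

end Pool.Agent.Results.MP_e752eb_gt.StrongTelgarsky
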